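import Mathlib
import Pool.Agent.Helper36.SPR.St

/-!
# Project SPR, module BA: Balog-Szemeredi-Gowers
-/

set_option autoImplicit false

namespace Pool.Agent.Helper4.SPR

open Finset
open scoped Pointwise
open Pool.Agent.Helper36.SPR

section aux

variable {G : Type} [AddCommGroup G] [DecidableEq G]

/-- number of representations as a difference -/
def rr (A : Finset G) (t : G) : ℕ := ((A ×ˢ A).filter (fun p => p.1 - p.2 = t)).card

/-- `A` intersected with its translate by `d` -/
def Ad (A : Finset G) (d : G) : Finset G := A.filter (fun a => a - d ∈ A)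

lemma mem_Ad (A : Finset G) (d a : G) : a ∈ Ad A d ↔ a ∈ A ∧ a - d ∈ A := by
  simp [Ad]

lemma cardfib (A : Finset G) (a b : G) (ha : a ∈ A) :
    ((A - A).filter (fun d => a - d ∈ A ∧ b - d ∈ A)).card = rr A (a - b) := by
  unfold rr
  refine Finset.card_bij (fun d _ => (a - d, b - d)) ?_ ?_ ?_
  · intro d hd
    simp only [mem_filter] at hd
    simp only [mem_filter, mem_product]
    exact ⟨⟨hd.2.1, hd.2.2⟩, by abel⟩
  · intro d1 _ d2 _ h
    have h1 := congrArg Prod.fst h
    simp only at h1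
    exact sub_right_injective h1
  · intro p hp
    simp only [mem_filter, mem_product] at hp
    refine ⟨a - p.1, ?_, ?_⟩
    · simp only [mem_filter]
      refine ⟨Finset.sub_mem_sub ha hp.1.1, ?_, ?_⟩
      · simpa using hp.1.1
      · have : b - (a - p.1) = p.2 := by
          have h2 := hp.2
          have h3 : p.1 = a - b + p.2 := by rw [← h2]; abel
          rw [h3]; abel
        rw [this]; exact hp.1.2
    · have : b - (a - p.1) = p.2 := by
        have h2 := hp.2
        have h3 : p.1 = a - b + p.2 := by rw [← h2]; abel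
        rw [h3]; abel
      simp [this]

lemma dbl (A : Finset G) (f : G × G → ℝ) :
    ∑ d ∈ A - A, ∑ p ∈ Ad A d ×ˢ Ad A d, f p = ∑ p ∈ A ×ˢ A, f p * rr A (p.1 - p.2) := by
  have h1 : ∀ d ∈ A - A, ∑ p ∈ Ad A d ×ˢ Ad A d, f p
      = ∑ p ∈ A ×ˢ A, if (p.1 - d ∈ A ∧ p.2 - d ∈ A) then f p else 0 := by
    intro d _
    rw [← Finset.sum_filter]
    refine Finset.sum_congr ?_ (fun _ _ => rfl)
    ext p
    simp only [mem_product, mem_Ad, mem_filter]
    tauto
  rw [Finset.sum_congr rfl h1, Finset.sum_comm]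
  refine Finset.sum_congr rfl ?_
  intro p hp
  rw [← Finset.sum_filter, Finset.sum_const, nsmul_eq_mul, mul_comm,
    cardfib A p.1 p.2 (mem_product.1 hp).1]

lemma enA_eq (A : Finset G) : enA A = ∑ p ∈ A ×ˢ A, rr A (p.1 - p.2) := by
  unfold enA
  rw [Finset.card_eq_sum_card_fiberwise (f := fun x => (x.1.1, x.2.1)) (t := A ×ˢ A)]
  · refine Finset.sum_congr rfl ?_
    intro p hp
    unfold rr
    refine Finset.card_bij (fun x _ => (x.2.2, x.1.2)) ?_ ?_ ?_
    · rintro ⟨⟨a, b⟩, ⟨c, e⟩⟩ hx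
      simp only [mem_filter, mem_product] at hx ⊢
      obtain ⟨⟨⟨⟨ha, hb⟩, hc, he⟩, h1⟩, h2⟩ := hx
      refine ⟨⟨he, hb⟩, ?_⟩
      rw [← h2]
      simp only
      have : e = a + b - c := by rw [h1]; abel
      rw [this]; abel
    · rintro ⟨⟨a, b⟩, ⟨c, e⟩⟩ hx ⟨⟨a', b'⟩, ⟨c', e'⟩⟩ hx' h
      simp only [mem_filter] at hx hx'
      have h1 := hx.2
      have h2 := hx'.2
      simp only [Prod.mk.injEq] at h ⊢
      rw [← h2] at h1
      simp only [Prod.mk.injEq] at h1
      exact ⟨⟨h1.1, h.2⟩, h1.2, h.1⟩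
    · intro q hq
      simp only [mem_filter, mem_product] at hq hp
      refine ⟨((p.1, q.2), (p.2, q.1)), ?_, rfl⟩
      simp only [mem_filter, mem_product]
      refine ⟨⟨⟨⟨hp.1, hq.1.2⟩, hp.2, hq.1.1⟩, ?_⟩, trivial⟩
      have h2 := hq.2
      have : q.1 = p.1 - p.2 + q.2 := by rw [← h2]; abel
      rw [this]; abel
  · rintro ⟨⟨a, b⟩, ⟨c, e⟩⟩ hx
    simp only [coe_filter, mem_product, Set.mem_ofPred_eq] at hx
    simp only [coe_product, Set.mem_prod, mem_coe]
    exact ⟨hx.1.1.1, hx.1.2.1⟩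

lemma cardAd (A : Finset G) (d : G) : (Ad A d).card = rr A d := by
  unfold rr
  refine Finset.card_bij (fun a _ => (a, a - d)) ?_ ?_ ?_
  · intro a ha
    rw [mem_Ad] at ha
    simp only [mem_filter, mem_product]
    exact ⟨ha, by abel⟩
  · intro a _ b _ h
    exact congrArg Prod.fst h
  · intro p hp
    simp only [mem_filter, mem_product] at hp
    have h2 : p.1 - d = p.2 := by rw [← hp.2]; abel
    refine ⟨p.1, ?_, ?_⟩
    · rw [mem_Ad, h2]; exact hp.1
    · rw [h2]

lemma sumAd (A : Finset G) : ∑ d ∈ A - A, (Ad A d).card = A.card ^ 2 := by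
  have h : (A ×ˢ A).card = ∑ d ∈ A - A, ((A ×ˢ A).filter (fun p => p.1 - p.2 = d)).card := by
    refine Finset.card_eq_sum_card_fiberwise (f := fun p : G × G => p.1 - p.2) ?_
    intro p hp
    simp only [coe_product, Set.mem_prod, mem_coe] at hp
    exact Finset.sub_mem_sub hp.1 hp.2
  rw [card_product] at h
  rw [pow_two, h]
  exact Finset.sum_congr rfl (fun d _ => cardAd A d)

/-- representations of a difference of two elements with many common popular partners -/
lemma repr_lower (A : Finset G) (h : ℝ) (hh : 0 ≤ h) (a a' : G)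
    (B : Finset G) (hB : ∀ b ∈ B, h ≤ rr A (a - b) ∧ h ≤ rr A (a' - b)) :
    (B.card : ℝ) * h ^ 2 ≤ ((((A ×ˢ A) ×ˢ (A ×ˢ A)).filter
      (fun x => (x.1.1 - x.1.2) - (x.2.1 - x.2.2) = a - a')).card : ℝ) := by
  have h1 : ∑ b ∈ B, rr A (a - b) * rr A (a' - b) ≤ (((A ×ˢ A) ×ˢ (A ×ˢ A)).filter
      (fun x => (x.1.1 - x.1.2) - (x.2.1 - x.2.2) = a - a')).card := by
    have h2 : ∀ b ∈ B, rr A (a - b) * rr A (a' - b)
        = ((((A ×ˢ A) ×ˢ (A ×ˢ A)).filter
          (fun x => (x.1.1 - x.1.2) - (x.2.1 - x.2.2) = a - a')).filter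
            (fun x => a - (x.1.1 - x.1.2) = b)).card := by
      intro b _
      unfold rr
      rw [← Finset.card_product]
      congr 1
      ext x
      simp only [mem_filter, mem_product]
      constructor
      · rintro ⟨⟨⟨h1, h2⟩, h3⟩, ⟨h4, h5⟩, h6⟩
        refine ⟨⟨⟨⟨h1, h2⟩, h4, h5⟩, ?_⟩, ?_⟩
        · rw [h3, h6]; abel
        · rw [h3]; abel
      · rintro ⟨⟨⟨⟨h1, h2⟩, h4, h5⟩, h6⟩, h7⟩
        have h8 : x.1.1 - x.1.2 = a - b := by rw [← h7]; abel
        refine ⟨⟨⟨h1, h2⟩, h8⟩, ⟨h4, h5⟩, ?_⟩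
        have h9 : x.2.1 - x.2.2 = (x.1.1 - x.1.2) - (a - a') := by rw [← h6]; abel
        rw [h9, h8]; abel
    rw [Finset.sum_congr rfl h2, Finset.sum_card_fiberwise_eq_card_filter]
    exact Finset.card_le_card (Finset.filter_subset _ _)
  have h2 : ∑ b ∈ B, h ^ 2 ≤ ∑ b ∈ B, ((rr A (a - b) : ℝ) * (rr A (a' - b) : ℝ)) := by
    refine Finset.sum_le_sum ?_
    intro b hb
    rw [pow_two]
    exact mul_le_mul (hB b hb).1 (hB b hb).2 hh (by positivity)
  rw [Finset.sum_const, nsmul_eq_mul] at h2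
  refine h2.trans ?_
  exact_mod_cast h1

end aux

theorem hBA : StBA := by
  intro G _ _ A K hne hK hen
  have hn : (0 : ℝ) < A.card := by exact_mod_cast hne.card_pos
  have hK0 : (0 : ℝ) < K := by linarith
  set n : ℝ := (A.card : ℝ) with hndef
  set η : ℝ := 1 / (16 * K) with hη
  have hη0 : 0 < η := by positivity
  classical
  -- unpopular pairs
  let up : G × G → ℝ := fun p => if (rr A (p.1 - p.2) : ℝ) < η * n then 1 else 0
  have hup0 : ∀ p, 0 ≤ up p := by
    intro p; simp only [up]; split_ifs <;> norm_num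
  -- choice of d
  have hex : ∃ d ∈ A - A, 0 < ((Ad A d).card : ℝ) ^ 2 - 8 * ∑ p ∈ Ad A d ×ˢ Ad A d, up p
      - n / (4 * K) * (Ad A d).card := by
    by_contra hcon
    push Not at hcon
    have h1 : ∑ d ∈ A - A, (((Ad A d).card : ℝ) ^ 2 - 8 * ∑ p ∈ Ad A d ×ˢ Ad A d, up p
      - n / (4 * K) * (Ad A d).card) ≤ 0 := Finset.sum_nonpos hcon
    rw [Finset.sum_sub_distrib, Finset.sum_sub_distrib, ← Finset.mul_sum, ← Finset.mul_sum] at h1
    have h2 : ∑ d ∈ A - A, ((Ad A d).card : ℝ) ^ 2 = (enA A : ℝ) := by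
      have := dbl A (fun _ => (1 : ℝ))
      simp only [Finset.sum_const, card_product, nsmul_eq_mul, mul_one, one_mul] at this
      rw [enA_eq]
      push_cast at this ⊢
      rw [← this]
      exact Finset.sum_congr rfl (fun d _ => by ring)
    have h3 : ∑ d ∈ A - A, ∑ p ∈ Ad A d ×ˢ Ad A d, up p ≤ η * n ^ 3 := by
      rw [dbl A up]
      have : ∀ p ∈ A ×ˢ A, up p * rr A (p.1 - p.2) ≤ η * n := by
        intro p _
        simp only [up]
        split_ifs with h
        · rw [one_mul]; exact h.le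
        · rw [zero_mul]; positivity
      refine (Finset.sum_le_card_nsmul _ _ _ this).trans ?_
      rw [card_product, nsmul_eq_mul]
      push_cast
      rw [← hndef]
      exact le_of_eq (by ring)
    have h4 : ∑ d ∈ A - A, ((Ad A d).card : ℝ) = n ^ 2 := by
      have := sumAd A
      rw [hndef]
      exact_mod_cast this
    rw [h2, h4] at h1
    have h5 : n ^ 3 / K ≤ (enA A : ℝ) := by
      rw [div_le_iff₀ hK0]; linarith
    have h6 : η * n ^ 3 = n ^ 3 / K / 16 := by rw [hη]; field_simp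
    have h7 : n / (4 * K) * n ^ 2 = n ^ 3 / K / 4 := by field_simp
    have h8 : 0 < n ^ 3 / K := by positivity
    rw [h6] at h3
    rw [h7] at h1
    linarith
  obtain ⟨d, _, hd⟩ := hex
  set S0 := Ad A d with hS0
  have hS0A : S0 ⊆ A := by rw [hS0]; exact Finset.filter_subset _ _
  set s0 : ℝ := (S0.card : ℝ) with hs0
  have hsum0 : 0 ≤ ∑ p ∈ S0 ×ˢ S0, up p := Finset.sum_nonneg (fun p _ => hup0 p)
  have hs0nn : 0 ≤ s0 := by positivity
  have hq : 0 < n / (4 * K) := by positivity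
  have hs0pos : 0 < s0 := by
    rcases hs0nn.lt_or_eq with h | h
    · exact h
    · exfalso
      rw [← h] at hd
      linarith [hd]
  have hs0n : n / (4 * K) < s0 := by
    by_contra hc
    push Not at hc
    have : s0 * s0 ≤ n / (4 * K) * s0 := mul_le_mul_of_nonneg_right hc hs0nn
    nlinarith
  have hun : 8 * ∑ p ∈ S0 ×ˢ S0, up p < s0 ^ 2 := by
    have : 0 < n / (4 * K) * s0 := by positivity
    linarith
  -- the set S
  let bad : G → ℝ := fun a => ∑ b ∈ S0, up (a, b)
  have hbad0 : ∀ a, 0 ≤ bad a := fun a => Finset.sum_nonneg (fun b _ => hup0 _)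
  have hbadsum : ∑ a ∈ S0, bad a = ∑ p ∈ S0 ×ˢ S0, up p := by
    rw [Finset.sum_product]
  let S := S0.filter (fun a => 4 * bad a < s0)
  have hSS0 : S ⊆ S0 := Finset.filter_subset _ _
  have hScard : s0 / 2 ≤ S.card := by
    have h1 : (S0.filter (fun a => ¬ 4 * bad a < s0)).card + S.card = S0.card := by
      rw [add_comm]
      exact Finset.card_filter_add_card_filter_not _
    have h2 : ((S0.filter (fun a => ¬ 4 * bad a < s0)).card : ℝ) * (s0 / 4)
        ≤ ∑ a ∈ S0.filter (fun a => ¬ 4 * bad a < s0), bad a := by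
      rw [← nsmul_eq_mul]
      refine Finset.card_nsmul_le_sum _ _ _ ?_
      intro a ha
      have := (mem_filter.1 ha).2
      push Not at this
      linarith
    have h3 : ∑ a ∈ S0.filter (fun a => ¬ 4 * bad a < s0), bad a ≤ ∑ a ∈ S0, bad a :=
      Finset.sum_le_sum_of_subset_of_nonneg (Finset.filter_subset _ _) (fun a _ _ => hbad0 a)
    have h4 : ((S0.filter (fun a => ¬ 4 * bad a < s0)).card : ℝ) * (s0 / 4) < s0 ^ 2 / 8 := by
      rw [hbadsum] at h3
      linarith
    have h5 : ((S0.filter (fun a => ¬ 4 * bad a < s0)).card : ℝ) < s0 / 2 := by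
      by_contra hc
      have hc' := mul_le_mul_of_nonneg_right (not_lt.1 hc) (show (0 : ℝ) ≤ s0 / 4 by positivity)
      have e : s0 / 2 * (s0 / 4) = s0 ^ 2 / 8 := by ring
      rw [e] at hc'
      exact absurd h4 (not_lt.2 hc')
    have h6 : ((S0.filter (fun a => ¬ 4 * bad a < s0)).card : ℝ) + S.card = s0 := by
      rw [hs0]; exact_mod_cast h1
    linarith
  refine ⟨S, hSS0.trans hS0A, ?_, ?_⟩
  · have h1 : n / (4 * K) * K = n / 4 := by field_simp
    have h2 : n / (4 * K) * K < s0 * K := mul_lt_mul_of_pos_right hs0n hK0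
    have h3 : s0 * K ≤ 2 * S.card * K := mul_le_mul_of_nonneg_right (by linarith) hK0.le
    rw [h1] at h2
    linarith
  · -- representation count
    have hrep : ∀ t ∈ S - S, s0 / 2 * (η * n) ^ 2 ≤ ((((A ×ˢ A) ×ˢ (A ×ˢ A)).filter
        (fun x => (x.1.1 - x.1.2) - (x.2.1 - x.2.2) = t)).card : ℝ) := by
      intro t ht
      obtain ⟨a, ha, a', ha', rfl⟩ := Finset.mem_sub.1 ht
      let B := S0.filter (fun b => ¬ ((rr A (a - b) : ℝ) < η * n) ∧ ¬ ((rr A (a' - b) : ℝ) < η * n))
      have hB := repr_lower A (η * n) (by positivity) a a' B (by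
        intro b hb
        have := (mem_filter.1 hb).2
        exact ⟨not_lt.1 this.1, not_lt.1 this.2⟩)
      refine le_trans ?_ hB
      refine mul_le_mul_of_nonneg_right ?_ (by positivity)
      have h1 : ∀ b ∈ S0, (1 : ℝ) - up (a, b) - up (a', b) ≤ if b ∈ B then 1 else 0 := by
        intro b hb
        simp only [up, B, mem_filter]
        by_cases h1 : (rr A (a - b) : ℝ) < η * n
        · by_cases h2 : (rr A (a' - b) : ℝ) < η * n
          · simp [h1, h2]
          · simp [h1, h2]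
        · by_cases h2 : (rr A (a' - b) : ℝ) < η * n
          · simp [h1, h2]
          · simp [h1, h2, hb]
      have h2 := Finset.sum_le_sum h1
      have h3 : ∑ b ∈ S0, (if b ∈ B then (1 : ℝ) else 0) = B.card := by
        rw [← Finset.sum_filter, Finset.sum_const, nsmul_eq_mul, mul_one]
        congr 2
        ext b
        simp only [mem_filter, B]
        tauto
      rw [h3, Finset.sum_sub_distrib, Finset.sum_sub_distrib, Finset.sum_const, nsmul_eq_mul,
        mul_one] at h2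
      have h4 : 4 * bad a < s0 := (mem_filter.1 ha).2
      have h5 : 4 * bad a' < s0 := (mem_filter.1 ha').2
      simp only [bad] at h4 h5
      linarith
    have hsum : ∑ t ∈ S - S, (((A ×ˢ A) ×ˢ (A ×ˢ A)).filter
        (fun x => (x.1.1 - x.1.2) - (x.2.1 - x.2.2) = t)).card ≤ ((A ×ˢ A) ×ˢ (A ×ˢ A)).card := by
      rw [Finset.sum_card_fiberwise_eq_card_filter]
      exact Finset.card_le_card (Finset.filter_subset _ _)
    have hsum' : ∑ t ∈ S - S, ((((A ×ˢ A) ×ˢ (A ×ˢ A)).filter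
        (fun x => (x.1.1 - x.1.2) - (x.2.1 - x.2.2) = t)).card : ℝ) ≤ n ^ 4 := by
      have h1 : (((A ×ˢ A) ×ˢ (A ×ˢ A)).card : ℝ) = n ^ 4 := by
        rw [card_product, card_product]; push_cast; rw [← hndef]; ring
      rw [← h1]
      exact_mod_cast hsum
    have hm : ((S - S).card : ℝ) * (s0 / 2 * (η * n) ^ 2) ≤ n ^ 4 := by
      rw [← nsmul_eq_mul]
      exact (Finset.card_nsmul_le_sum _ _ _ hrep).trans hsum'
    -- final computation
    set m : ℝ := ((S - S).card : ℝ) with hmdef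
    have hm0 : 0 ≤ m := by positivity
    have e1 : (η * n) ^ 2 = n ^ 2 / (256 * K ^ 2) := by
      rw [hη]; field_simp; norm_num
    rw [e1] at hm
    have e2 : m * (s0 / 2 * (n ^ 2 / (256 * K ^ 2))) = m * s0 * n ^ 2 / (512 * K ^ 2) := by
      field_simp; ring
    rw [e2, div_le_iff₀ (by positivity)] at hm
    -- m s0 n^2 ≤ n^4 * 512 K^2
    have e3 : m * s0 ≤ 512 * K ^ 2 * n ^ 2 := by
      have : m * s0 * n ^ 2 ≤ 512 * K ^ 2 * n ^ 2 * n ^ 2 := by nlinarith [hm]
      exact le_of_mul_le_mul_right this (by positivity)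
    have e4 : m * (n / (4 * K)) ≤ m * s0 := mul_le_mul_of_nonneg_left hs0n.le hm0
    have e5 : m * (n / (4 * K)) = m * n / (4 * K) := by ring
    have e6 : m * n ≤ 2048 * K ^ 3 * n * n := by
      have h1 : m * n / (4 * K) ≤ 512 * K ^ 2 * n ^ 2 := by rw [← e5]; linarith
      rw [div_le_iff₀ (by positivity)] at h1
      nlinarith [h1]
    have e7 : m ≤ 2048 * K ^ 3 * n := le_of_mul_le_mul_right e6 hn
    have e8 : n ≤ 8 * K * S.card := by
      have h1 : n / (4 * K) * K = n / 4 := by field_simp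
      have h2 : n / (4 * K) * K < s0 * K := mul_lt_mul_of_pos_right hs0n hK0
      have h3 : s0 * K ≤ 2 * S.card * K := mul_le_mul_of_nonneg_right (by linarith) hK0.le
      rw [h1] at h2
      linarith
    calc m ≤ 2048 * K ^ 3 * n := e7
      _ ≤ 2048 * K ^ 3 * (8 * K * S.card) := mul_le_mul_of_nonneg_left e8 (by positivity)
      _ = 2 ^ 14 * K ^ 4 * S.card := by ring

end Pool.Agent.Helper4.SPR
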