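import Mathlib
import Pool.Agent.Helper36.SPR.St4

set_option autoImplicit false

namespace Pool.Agent.Helper4.SPR

open Finset
open scoped Pointwise
open Pool.Agent.Helper36.SPR

theorem hNB3 (hNA3 : StNA3) : StNB3 := by
  intro n T _ th hT j
  have hn0 : (n : ℂ) ≠ 0 := Nat.cast_ne_zero.mpr (NeZero.ne n)
  have hn0r : (n : ℝ) ≠ 0 := Nat.cast_ne_zero.mpr (NeZero.ne n)
  have hnpos : (0 : ℝ) < n := Nat.cast_pos.mpr (Nat.pos_of_ne_zero (NeZero.ne n))
  have orth : ∀ b : ZMod n, ∑ a : ZMod n, (ZMod.stdAddChar (a * b) : ℂ)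
      = if b = 0 then (n : ℂ) else 0 := by
    intro b
    have h := AddChar.sum_mulShift b (ZMod.isPrimitive_stdAddChar n)
    rw [h, ZMod.card]
    push_cast
    rfl
  -- inversion for every exponent
  have inv : ∀ j : ℕ, ∀ x : ZMod n, (nuv n T th j x : ℂ)
      = (∑ a : ZMod n, ((‖muv n T th a‖ ^ (2 * j) : ℝ) : ℂ) * ZMod.stdAddChar (-(a * x))) / n := by
    intro j x
    obtain ⟨_, _, hF, _⟩ := hNA3 n T th hT j
    rw [eq_div_iff hn0]
    have h1 : ∀ a : ZMod n, ((‖muv n T th a‖ ^ (2 * j) : ℝ) : ℂ) * ZMod.stdAddChar (-(a * x))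
        = ∑ y, (nuv n T th j y : ℂ) * ZMod.stdAddChar (a * (y - x)) := by
      intro a
      rw [← hF a, Finset.sum_mul]
      refine Finset.sum_congr rfl fun y _ => ?_
      rw [mul_assoc, ← AddChar.map_add_eq_mul]
      congr 2
      ring
    rw [Finset.sum_congr rfl fun a _ => h1 a, Finset.sum_comm]
    have h2 : ∀ y : ZMod n, ∑ a : ZMod n, (nuv n T th j y : ℂ) * ZMod.stdAddChar (a * (y - x))
        = if y = x then (nuv n T th j y : ℂ) * n else 0 := by
      intro y
      rw [← Finset.mul_sum, orth]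
      by_cases h : y = x
      · simp [h]
      · simp [h, sub_ne_zero.mpr h]
    rw [Finset.sum_congr rfl fun y _ => h2 y]
    simp
  have hbet : ∀ j : ℕ, betv n T th j = (∑ a : ZMod n, ‖muv n T th a‖ ^ (2 * j)) / n := by
    intro j
    have h := inv j 0
    have h' : ((betv n T th j : ℝ) : ℂ) = (((∑ a : ZMod n, ‖muv n T th a‖ ^ (2 * j)) / n : ℝ) : ℂ) := by
      rw [betv, h]
      push_cast
      congr 1
      refine Finset.sum_congr rfl fun a _ => ?_
      simp
    exact_mod_cast h'
  obtain ⟨hpos, hsum, hF, hmu⟩ := hNA3 n T th hT j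
  have hle : ∀ x, nuv n T th j x ≤ betv n T th j := by
    intro x
    have h1 : nuv n T th j x ≤ ‖(nuv n T th j x : ℂ)‖ := by
      rw [Complex.norm_real]
      exact le_abs_self _
    refine h1.trans ?_
    rw [inv j x, hbet j, norm_div, Complex.norm_natCast]
    refine div_le_div_of_nonneg_right ?_ hnpos.le
    refine (norm_sum_le _ _).trans (Finset.sum_le_sum fun a _ => ?_)
    rw [norm_mul, Complex.norm_real, AddChar.norm_apply, mul_one, Real.norm_eq_abs, abs_of_nonneg]
    positivity
  refine ⟨inv j, hbet j, hpos 0, ?_, hle, ?_, ?_⟩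
  · rw [div_le_iff₀ hnpos]
    calc (1 : ℝ) = ∑ x, nuv n T th j x := hsum.symm
      _ ≤ ∑ _x : ZMod n, betv n T th j := Finset.sum_le_sum fun x _ => hle x
      _ = betv n T th j * n := by
        rw [Finset.sum_const, Finset.card_univ, ZMod.card, nsmul_eq_mul, mul_comm]
  · have hFc : ∀ a : ZMod n, ∑ x, (nuv n T th j x : ℂ) * ZMod.stdAddChar (-(a * x))
        = ((‖muv n T th a‖ ^ (2 * j) : ℝ) : ℂ) := by
      intro a
      have h := congrArg (starRingEnd ℂ) (hF a)
      rw [map_sum, Complex.conj_ofReal] at h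
      rw [← h]
      refine Finset.sum_congr rfl fun x _ => ?_
      rw [map_mul, Complex.conj_ofReal, AddChar.map_neg_eq_conj]
    have key : ((∑ x, nuv n T th j x ^ 2 : ℝ) : ℂ) = ((betv n T th (2 * j) : ℝ) : ℂ) := by
      rw [hbet (2 * j)]
      push_cast
      have h1 : ∀ x : ZMod n, (nuv n T th j x : ℂ) ^ 2
          = (∑ a : ZMod n, ((‖muv n T th a‖ ^ (2 * j) : ℝ) : ℂ)
            * ((nuv n T th j x : ℂ) * ZMod.stdAddChar (-(a * x)))) / n := by
        intro x
        rw [sq]
        nth_rewrite 2 [inv j x]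
        rw [mul_div_assoc', Finset.mul_sum]
        congr 1
        refine Finset.sum_congr rfl fun a _ => ?_
        ring
      rw [Finset.sum_congr rfl fun x _ => h1 x, ← Finset.sum_div, Finset.sum_comm]
      congr 1
      refine Finset.sum_congr rfl fun a _ => ?_
      rw [← Finset.mul_sum, hFc a]
      push_cast
      ring
    exact_mod_cast key
  · intro j' hj
    rw [hbet j, hbet j']
    refine div_le_div_of_nonneg_right ?_ hnpos.le
    refine Finset.sum_le_sum fun a _ => ?_
    exact pow_le_pow_of_le_one (norm_nonneg _) (hmu a) (by omega)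

end Pool.Agent.Helper4.SPR
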